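import Pool.Agent.Q50.MU.Growth

/-!
# Orders and ranks of the class groups of the layers: the `μ`-invariant grows strictly unless it vanishes

(Work of helper50, split into two hand-ins by helper182.)

For a number field `K` let `Cl'(K)` be the class group modulo the classes of the primes above `p`, `v(K)` the exponent of
`p` in its order and `rank(K)` its `p`-rank. Let `F_m` be the layers of the cyclotomic `ℤ_p`-extension of `F`. For ALL Galois
`p`-extensions `L / F` with `L ∩ F_∞ = F` whose group has a quotient `(ℤ/p)^d`, and `r` the number of archimedean places of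
`F`: `v(L F_m) ≥ v(F_m) + d rank(F_m) - r [F_m : F] - O(m)`. So if `d > r` and Iwasawa's conjecture fails for `F` then
`v(L F_m) - v(F_m)` grows at least like `[F_m : F]`.
-/

set_option autoImplicit false
set_option maxHeartbeats 4000000
set_option synthInstance.maxHeartbeats 400000

namespace Pool.Agent.Q182.SP.Orders

open Pool.Agent.Q173.MU Pool.Agent.Q50.MU NumberField IsLocalRing

/-- The subgroup of the class group of `K` generated by the classes of the primes above `p`. -/
noncomputable def primesAbove (p : ℕ) (K : IntermediateField ℚ ℂ) [NumberField K] :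
    Subgroup (ClassGroup (𝓞 K)) :=
  Subgroup.closure {c | ∃ I : nonZeroDivisors (Ideal (𝓞 K)), (I : Ideal (𝓞 K)).IsPrime ∧
    ((p : 𝓞 K)) ∈ (I : Ideal (𝓞 K)) ∧ ClassGroup.mk0 I = c}

/-- The `p`-rank of the class group of the number field `K` modulo the classes of the primes above `p`. -/
noncomputable def rank (p : ℕ) (K : IntermediateField ℚ ℂ) [NumberField K] : ℕ :=
  Nat.log p (Nat.card {g : ClassGroup (𝓞 K) ⧸ primesAbove p K // g ^ p = 1})

/-- The exponent of `p` in the order of the class group of the number field `K` modulo the classes of the primes above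
`p`. -/
noncomputable def vord (p : ℕ) (K : IntermediateField ℚ ℂ) [NumberField K] : ℕ :=
  padicValNat p (Nat.card (ClassGroup (𝓞 K) ⧸ primesAbove p K))

open Classical in
/-- The same exponent as a function on all subfields (zero if `K` is not a number field). -/
noncomputable def vR (p : ℕ) (K : IntermediateField ℚ ℂ) : ℝ :=
  if _h : NumberField K then (vord p K : ℝ) else 0

/-- The conjecture for the field `F`: the `p`-ranks of the layers of `F` are bounded (this is equivalent to `μ = 0`, and it
is the form of the frozen statement). -/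
def MuZero (p : ℕ) (F : IntermediateField ℚ ℂ) : Prop :=
  ∃ C : ℝ, ∀ m K, IsLayer p m F K → ∀ [NumberField K], (rank p K : ℝ) ≤ C

/-- `p` is odd or `F` is totally imaginary. -/
def Adm (p : ℕ) (F : IntermediateField ℚ ℂ) : Prop := p ≠ 2 ∨ IsTotImag F

/-- `L / F` is a Galois `p`-extension with `L ∩ F_∞ = F` whose group has a quotient `(ℤ/p)^d`. -/
def IsPExt (p d : ℕ) (F L : IntermediateField ℚ ℂ) : Prop :=
  ∃ h : F ≤ L, IsExt p h ∧ IsPGroup p (GalGrp h) ∧ HasElemQuot p d (GalGrp h)

/-- The known properties of the modules `X F = X(F_∞) ⊗_Λ Λ_(p)`, where `X(F_∞)` is the Galois group of the maximal abelian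
unramified pro-`p` extension of `F_∞` in which the primes above `p` split completely. -/
structure Known (D : IwData) (p : ℕ) : Prop where
  loc : D.IsLoc p
  dvr : IsDvr D.O
  torsion : D.IsTorsion
  /-- the orders: `v(F_m) = μ(F) [F_m : F] + O(m)` -/
  formula : ∀ F : IntermediateField ℚ ℂ, FiniteDimensional ℚ F → HasFormula p (vR p) F (D.mu F)
  /-- the ranks: `rank(F_m) = m(F) [F_m : F] + O(1)` -/
  ranks : ∀ F : IntermediateField ℚ ℂ, FiniteDimensional ℚ F →
    ∃ C : ℝ, ∀ m K, IsLayer p m F K → ∀ [NumberField K], |(rank p K : ℝ) - D.m F * deg F K| ≤ C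
  pres : D.HasPres p (Adm p)
  /-- Every number field `F` has a finite extension `F'` which is admissible (take `F' = F(√-1)` if `p = 2`); the map
  `X F' → X F` is surjective. -/
  descent : ∀ F : IntermediateField ℚ ℂ, FiniteDimensional ℚ F →
    ∃ F' : IntermediateField ℚ ℂ, F ≤ F' ∧ FiniteDimensional ℚ F' ∧ Adm p F' ∧ D.m F ≤ D.m F'
  layers : HasLayers p
  /-- every number field has Galois `p`-extensions with the group `(ℤ/p)^d` and `L ∩ F_∞ = F` -/
  ext : ∀ (F : IntermediateField ℚ ℂ) (d : ℕ), FiniteDimensional ℚ F → ∃ L, IsPExt p d F L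

/-- `v(L F_m) ≥ v(F_m) + d rank(F_m) - r [F_m : F] - O(m)`. -/
def OrderRank (p : ℕ) (F L : IntermediateField ℚ ℂ) (d r : ℝ) : Prop :=
  ∃ C : ℝ, ∀ m K, IsLayer p m F K → ∀ [NumberField K],
    vR p K + d * rank p K - r * deg F K - C * (m + 1) ≤ vR p (L ⊔ K)

section

variable {p : ℕ} [hp : Fact p.Prime] {D : IwData}

omit hp in
lemma numberField_of {K : IntermediateField ℚ ℂ} (h : FiniteDimensional ℚ K) : NumberField K := by
  have := h
  exact { to_charZero := inferInstance, to_finiteDimensional := h }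

lemma numberField_layer {F K : IntermediateField ℚ ℂ} {m : ℕ} (hF : FiniteDimensional ℚ F)
    (hK : IsLayer p m F K) : NumberField K := numberField_of (layer_fin hp.out hF hK)

omit hp in
lemma finite_left {d : ℕ} {F L : IntermediateField ℚ ℂ} (hL : IsPExt p d F L) :
    F ≤ L ∧ FiniteDimensional ℚ F ∧ FiniteDimensional ℚ L ∧ IsDisj p F L := by
  obtain ⟨h, hE, hP, hd⟩ := hL
  have hLf : FiniteDimensional ℚ L := hE.1
  exact ⟨h, Module.Finite.of_injective (IntermediateField.inclusion h).toLinearMap
    (IntermediateField.inclusion_injective h), hE.1, hE.2.2⟩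

/-- the degrees of the layers tend to infinity -/
lemma exists_large {F : IntermediateField ℚ ℂ} (hF : FiniteDimensional ℚ F) (C : ℝ) :
    ∃ M : ℕ, ∀ m ≥ M, ∀ K, IsLayer p m F K → C < deg F K := by
  obtain ⟨M, hM⟩ := exists_small (p := p) hF |C| 1 one_pos
  refine ⟨M, fun m hm K hK => ?_⟩
  have h1 := hM m hm K hK
  have h2 : C ≤ |C| * (m + 1) := by
    have h3 : (0 : ℝ) ≤ |C| * m := mul_nonneg (abs_nonneg C) (Nat.cast_nonneg m)
    have h4 := le_abs_self C
    nlinarith
  linarith

/-- The conjecture is equivalent to `m(F) = 0`. -/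
lemma muZero_iff (hD : Known D p) {F : IntermediateField ℚ ℂ} (hF : FiniteDimensional ℚ F) :
    MuZero p F ↔ D.m F = 0 := by
  obtain ⟨C, hC⟩ := hD.ranks F hF
  constructor
  · rintro ⟨B, hB⟩
    by_contra hne
    have hpos : (1 : ℝ) ≤ D.m F := by
      have : 1 ≤ D.m F := Nat.one_le_iff_ne_zero.2 hne
      exact_mod_cast this
    obtain ⟨M, hM⟩ := exists_large (p := p) hF (C + B)
    obtain ⟨K, hK⟩ := hD.layers.exists M F
    have hn := numberField_layer hF hK
    have h1 := hM M le_rfl K hK
    have h2 := (abs_le.1 (hC M K hK)).1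
    have h3 := hB M K hK
    have h4 : (deg F K : ℝ) ≤ D.m F * deg F K := by
      nlinarith [(Nat.cast_nonneg (deg F K) : (0 : ℝ) ≤ _)]
    linarith
  · intro h0
    refine ⟨C, fun m K hK _ => ?_⟩
    have h2 := (abs_le.1 (hC m K hK)).2
    rw [h0, Nat.cast_zero, zero_mul, sub_zero] at h2
    exact h2

/-- **The inequality for the invariants.** -/
lemma mu_add_le (hD : Known D p) {d : ℕ} {F L : IntermediateField ℚ ℂ} (hA : Adm p F) (hL : IsPExt p d F L) :
    D.mu F + d * D.m F ≤ D.mu L + places F := by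
  obtain ⟨h0, hF, hLf, -⟩ := finite_left hL
  obtain ⟨h, hE, hP, hd⟩ := hL
  have hfin := finite_gal hE
  have hC := hD.loc.2
  exact len_add_ge (p := p) hD.dvr hP (hD.pres F L h hA hE hP) (hD.torsion L hLf).2 (hD.torsion F hF).2 hd

/-- **The inequality for the class groups.** -/
lemma orderRank (hD : Known D p) {d : ℕ} {F L : IntermediateField ℚ ℂ} (hA : Adm p F) (hL : IsPExt p d F L) :
    OrderRank p F L d (places F) := by
  obtain ⟨h, hF, hLf, hdj⟩ := finite_left hL
  obtain ⟨C, hC⟩ := hD.formula F hF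
  obtain ⟨C', hC'⟩ := hD.formula L hLf
  obtain ⟨B, hB⟩ := hD.ranks F hF
  have h1 : (D.mu F : ℝ) + d * D.m F ≤ D.mu L + places F := by exact_mod_cast mu_add_le hD hA hL
  refine ⟨C + C' + d * |B|, fun m K hK _ => ?_⟩
  have h2 := (abs_le.1 (hC m K hK)).2
  have h3 := (abs_le.1 (hC' m (L ⊔ K) (layer_sup h hK))).1
  rw [deg_sup h hLf hK (hdj m K hK)] at h3
  have h4 := (abs_le.1 (hB m K hK)).2
  have h5 : ((D.mu F : ℝ) + d * D.m F) * deg F K ≤ (D.mu L + places F) * deg F K :=
    mul_le_mul_of_nonneg_right h1 (Nat.cast_nonneg _)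
  have h6 : (d : ℝ) * rank p K ≤ d * (D.m F * deg F K + |B|) := by
    refine mul_le_mul_of_nonneg_left ?_ (Nat.cast_nonneg _)
    have := le_abs_self B
    linarith
  have h7 : (d : ℝ) * |B| ≤ d * |B| * (m + 1) := by
    have h8 : (0 : ℝ) ≤ d * |B| * m := by positivity
    nlinarith
  nlinarith

lemma growth (hD : Known D p) {d : ℕ} {F L : IntermediateField ℚ ℂ} (hA : Adm p F) (hL : IsPExt p d F L)
    (h0 : ¬ MuZero p F) : GrowsBy p (vR p) F L (d - places F) := by
  obtain ⟨h, hF, hLf, hdj⟩ := finite_left hL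
  rw [muZero_iff hD hF] at h0
  have hm : 1 ≤ D.m F := Nat.one_le_iff_ne_zero.2 h0
  have h1 := mu_add_le hD hA hL
  have h2 : D.mu F + d ≤ D.mu L + places F := by
    have : d * 1 ≤ d * D.m F := Nat.mul_le_mul_left d hm
    omega
  refine growsBy_of h hLf hdj (hD.formula F hF) (hD.formula L hLf) ?_
  have h3 : (D.mu F : ℝ) + d ≤ D.mu L + places F := by exact_mod_cast h2
  linarith

omit hp in
/-- the vanishing of `μ` goes up -/
lemma mu_up (hD : Known D p) {d : ℕ} {F L : IntermediateField ℚ ℂ} (hA : Adm p F) (hL : IsPExt p d F L)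
    (h0 : D.mu F = 0) : D.mu L = 0 := by
  obtain ⟨_, hF, hLf, _⟩ := finite_left hL
  obtain ⟨h, hE, hP, hd⟩ := hL
  have hfin := finite_gal hE
  rw [D.mu_eq_zero_iff hD.torsion hF] at h0
  rw [D.mu_eq_zero_iff hD.torsion hLf]
  have h1 : D.m L ≤ Nat.card (GalGrp h) * D.m F := (hD.pres F L h hA hE hP).rk_le
  rw [h0, mul_zero] at h1
  exact Nat.le_zero.1 h1

lemma iff_growth (hD : Known D p) {d : ℕ} {F L : IntermediateField ℚ ℂ} (hA : Adm p F) (hL : IsPExt p d F L) {c : ℝ}
    (hc : 0 < c) (hc' : c < d - places F) : MuZero p F ↔ SmallGrowth p (vR p) F L c := by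
  obtain ⟨h, hF, hLf, hdj⟩ := finite_left hL
  constructor
  · intro h0
    have h1 : D.mu F = 0 := by
      rw [muZero_iff hD hF] at h0
      exact (D.mu_eq_zero_iff hD.torsion hF).2 h0
    have h2 := hD.formula F hF
    have h3 := hD.formula L hLf
    rw [h1] at h2
    rw [mu_up hD hA hL h1] at h3
    exact smallGrowth_of hD.layers h hF h2 h3 hc
  · intro hs
    by_contra h0
    exact not_smallGrowth hF hc' (growth hD hA hL h0) hs

end

section

variable {p : ℕ} [hp : Fact p.Prime] {D : IwData}

/-- **The dichotomy.** -/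
lemma dichotomy (hD : Known D p) {d : ℕ} {F L : IntermediateField ℚ ℂ} (hA : Adm p F) (hL : IsPExt p d F L) :
    MuZero p F ∨ GrowsBy p (vR p) F L (d - places F) := by
  by_cases h0 : MuZero p F
  · exact Or.inl h0
  · exact Or.inr (growth hD hA hL h0)

/-- **The criterion for all number fields.** -/
lemma all_iff (hD : Known D p) : (∀ F : IntermediateField ℚ ℂ, FiniteDimensional ℚ F → MuZero p F) ↔
    ∀ F : IntermediateField ℚ ℂ, FiniteDimensional ℚ F → Adm p F → ∃ (d : ℕ) (L : IntermediateField ℚ ℂ) (c : ℝ),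
      IsPExt p d F L ∧ c < d - places F ∧ SmallGrowth p (vR p) F L c := by
  constructor
  · intro hall F hF hA
    obtain ⟨L, hL⟩ := hD.ext F (places F + 1) hF
    refine ⟨places F + 1, L, 1 / 2, hL, ?_, ?_⟩
    · push_cast
      linarith
    · refine (iff_growth hD hA hL (by norm_num) ?_).1 (hall F hF)
      push_cast
      linarith
  · intro hall F hF
    obtain ⟨F', hle, hF', hA, hm⟩ := hD.descent F hF
    obtain ⟨d, L, c, hL, hc, hs⟩ := hall F' hF' hA
    have h1 : MuZero p F' := by
      by_contra h0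
      exact not_smallGrowth hF' hc (growth hD hA hL h0) hs
    rw [muZero_iff hD hF'] at h1
    rw [muZero_iff hD hF]
    omega

end

end Pool.Agent.Q182.SP.Orders
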