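import Pool.Agent.Q50.MU.Growth

/-!
# Iwasawa cohomology of `p`-adic representations: strict growth of the `μ`-invariant

(Work of helper50, split into two hand-ins by helper182.)

For a representation `T` of the Galois group of `K` let `ℓ(K, T)` be the length of `H²_Iw(𝓞_{K,S}, T)` localised at the
uniformiser: the `μ`-invariant if the module is torsion, and `∞` if it is not torsion. So the assertion of the problem for
`K`, `T` is `ℓ(K, T) = 0`. If `L / K` is a Galois `p`-extension with `L ∩ K_∞ = K` whose group has a quotient `(ℤ/p)^d` then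
`ℓ(L, T) ≥ ℓ(K, T) + d m(K, T) - r(K, T)`, where `m(K, T)` is the number of generators of the localised module and `r(K, T)`
the archimedean term of the Euler characteristic formula. So `ℓ(L, T) > ℓ(K, T)` for all these `L` with `d > r(K, T)`, unless
`ℓ(K, T)` is `0` or `∞`.
-/

set_option autoImplicit false
set_option maxHeartbeats 4000000
set_option synthInstance.maxHeartbeats 400000

namespace Pool.Agent.Q182.SP.Rep

open Pool.Agent.Q173.MU Pool.Agent.Q50.MU IsLocalRing

/-- The cohomology of representations, for one coefficient ring `R` (the ring of integers of a finite extension of `ℚ_p`,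
with uniformiser `π`): `Rep K` is the set of the representations `T` (free `R`-modules of finite rank with a continuous
action of `G_K`, ramified at finitely many places), `res` the restriction to a larger field, `O` the localisation of
`Λ = R[[Γ]]` at `(π)`, `H K T` the module `H²_Iw(𝓞_{K,S}, T) ⊗_Λ O` and `r K T` the sum of
`[K_v : ℝ] rank T - rank H⁰(K_v, T)` over the archimedean places `v` of `K`. -/
structure CohData where
  /-- the representations -/
  Rep : IntermediateField ℚ ℂ → Type
  /-- restriction -/
  res : ∀ {K L : IntermediateField ℚ ℂ}, K ≤ L → Rep K → Rep L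
  /-- the ring -/
  O : Type
  [ring : CommRing O]
  [loc : IsLocalRing O]
  /-- the modules -/
  H : ∀ K : IntermediateField ℚ ℂ, Rep K → Type
  [grp : ∀ K T, AddCommGroup (H K T)]
  [mod : ∀ K T, Module O (H K T)]
  /-- the archimedean contribution -/
  r : ∀ K : IntermediateField ℚ ℂ, Rep K → ℕ

attribute [instance] CohData.ring CohData.loc CohData.grp CohData.mod

/-- The number of generators of `H K T`. -/
noncomputable def CohData.m (D : CohData) (K : IntermediateField ℚ ℂ) (T : D.Rep K) : ℕ := rk D.O (D.H K T)

/-- The length of `H K T`: the `μ`-invariant of `H²_Iw(𝓞_{K,S}, T)` if this module is torsion, and `∞` otherwise. -/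
noncomputable def CohData.ell (D : CohData) (K : IntermediateField ℚ ℂ) (T : D.Rep K) : ℕ∞ :=
  Module.length D.O (D.H K T)

/-- The assertion of Q1 for `K`, `T`: the module `H²_Iw(𝓞_{K,S}, T)` is torsion with `μ`-invariant zero, i.e. its
localisation `H K T` at `(π)` is zero. -/
def CohData.Good (D : CohData) (K : IntermediateField ℚ ℂ) (T : D.Rep K) : Prop := Subsingleton (D.H K T)

/-- The known properties of the cohomology groups. -/
structure Known (D : CohData) (p : ℕ) : Prop where
  /-- the residue field of `O` is infinite of characteristic `p` -/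
  loc : Infinite (ResidueField D.O) ∧ CharP (ResidueField D.O) p
  /-- `O` is a discrete valuation ring of characteristic zero -/
  dvr : IsDvr D.O
  /-- the modules are finitely generated -/
  fin : ∀ (K : IntermediateField ℚ ℂ) (T : D.Rep K), FiniteDimensional ℚ K → Module.Finite D.O (D.H K T)
  /-- Presentations: let `L / K` be a finite Galois `p`-extension with group `G` such that `L ∩ K_∞ = K`. Then the module
  `H L T` has a presentation over `O[G]` with `m(K, T)` generators and `m(K, T) + r(K, T)` relations, and its coinvariants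
  are `H K T`. (The complex `RΓ_Iw(𝓞_{K,S}, R[G] ⊗ T)` is perfect with the Euler characteristic `- r(K, T)` of Tate's
  formula; localised at `(π)` it has cohomology only in the degrees `1` and `2`, also modulo the maximal ideal; enlarging
  `S` by the places ramified in `L` does not change the localised `H²`.) -/
  pres : ∀ (K L : IntermediateField ℚ ℂ) (h : K ≤ L) (T : D.Rep K), IsExt p h → IsPGroup p (GalGrp h) →
    IsPres D.O (GalGrp h) (D.H L (D.res h T)) (D.H K T) (D.m K T) (D.m K T + D.r K T)
  /-- every number field has Galois `p`-extensions with the group `(ℤ/p)^d` and `L ∩ K_∞ = K` (composites with cyclic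
  extensions of `ℚ` of degree `p` ramified at suitable primes) -/
  ext : ∀ (K : IntermediateField ℚ ℂ) (d : ℕ), FiniteDimensional ℚ K → ∃ (L : IntermediateField ℚ ℂ) (h : K ≤ L),
    IsExt p h ∧ IsPGroup p (GalGrp h) ∧ HasElemQuot p d (GalGrp h)

section

variable {p : ℕ} [hp : Fact p.Prime] {D : CohData}

omit hp in
lemma good_iff (hD : Known D p) {K : IntermediateField ℚ ℂ} (T : D.Rep K) (hK : FiniteDimensional ℚ K) :
    (D.Good K T ↔ D.ell K T = 0) ∧ (D.Good K T ↔ D.m K T = 0) := by
  have hfin := hD.fin K T hK
  have h1 : D.m K T = 0 ↔ Module.length D.O (D.H K T) = 0 := rk_eq_zero_iff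
  refine ⟨Module.length_eq_zero_iff.symm, ?_⟩
  rw [h1, Module.length_eq_zero_iff]
  rfl

omit hp in
lemma finite_left {K L : IntermediateField ℚ ℂ} {h : K ≤ L} (hE : IsExt p h) : FiniteDimensional ℚ K := by
  have hLf : FiniteDimensional ℚ L := hE.1
  exact Module.Finite.of_injective (IntermediateField.inclusion h).toLinearMap
    (IntermediateField.inclusion_injective h)

/-- **The general inequality.** -/
lemma ell_add_le (hD : Known D p) {K L : IntermediateField ℚ ℂ} {h : K ≤ L} (T : D.Rep K) (hE : IsExt p h)
    (hP : IsPGroup p (GalGrp h)) {d : ℕ} (hd : HasElemQuot p d (GalGrp h)) :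
    D.ell K T + d * D.m K T ≤ D.ell L (D.res h T) + D.r K T := by
  have hfin := finite_gal hE
  have hC := hD.loc.2
  have hpres := hD.pres K L h T hE hP
  by_cases hY : D.ell K T = ⊤
  · -- the module of `L` has the module of `K` as a quotient
    obtain ⟨A, ⟨e⟩, ⟨e'⟩⟩ := hpres
    have h1 : D.ell L (D.res h T) = ⊤ := by
      have h2 := Module.length_le_of_surjective (cokMap D.O A (augTriv D.O (GalGrp h)))
        (cokMap_surjective A _ augTriv_surjective)
      rw [LinearEquiv.length_eq (cokTrivEquiv A), ← LinearEquiv.length_eq e', ← length_coker_eq,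
        ← LinearEquiv.length_eq e] at h2
      change D.ell K T ≤ D.ell L (D.res h T) at h2
      rw [hY, top_le_iff] at h2
      exact h2
    rw [h1, top_add]
    exact le_top
  · by_cases hX : D.ell L (D.res h T) = ⊤
    · rw [hX, top_add]
      exact le_top
    · have h1 := len_add_ge (p := p) hD.dvr hP hpres hX hY hd
      have h2 : D.ell K T = (len D.O (D.H K T) : ℕ∞) := (len_eq hY).symm
      have h3 : D.ell L (D.res h T) = (len D.O (D.H L (D.res h T)) : ℕ∞) := (len_eq hX).symm
      rw [h2, h3]
      exact_mod_cast h1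

/-- **The case `r = 0`.** -/
lemma ell_add_le_irr (hD : Known D p) {K L : IntermediateField ℚ ℂ} {h : K ≤ L} (T : D.Rep K) (hE : IsExt p h)
    (hP : IsPGroup p (GalGrp h)) (hr : D.r K T = 0) :
    D.ell K T + (irr (GalGrp h) - 1 : ℕ) * D.m K T ≤ D.ell L (D.res h T) := by
  have hfin := finite_gal hE
  have hC := hD.loc.2
  have hpres := hD.pres K L h T hE hP
  rw [hr, add_zero] at hpres
  by_cases hX : D.ell L (D.res h T) = ⊤
  · rw [hX]
    exact le_top
  · have hY : D.ell K T ≠ ⊤ := by
      have h0 : HasElemQuot p 0 (GalGrp h) := ⟨fun _ => 0, fun _ _ => by rw [add_zero], fun z => ⟨1, Subsingleton.elim _ _⟩⟩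
      have h1 := ell_add_le hD T hE hP h0
      rw [hr, Nat.cast_zero, zero_mul, add_zero, add_zero] at h1
      intro h2
      rw [h2, top_le_iff] at h1
      exact hX h1
    have h1 := len_ge_irr (p := p) hD.dvr hP hpres hX hY
    have h2 : D.ell K T = (len D.O (D.H K T) : ℕ∞) := (len_eq hY).symm
    have h3 : D.ell L (D.res h T) = (len D.O (D.H L (D.res h T)) : ℕ∞) := (len_eq hX).symm
    rw [h2, h3]
    exact_mod_cast h1

omit hp in
/-- the assertion goes up -/
lemma good_up (hD : Known D p) {K L : IntermediateField ℚ ℂ} {h : K ≤ L} (T : D.Rep K) (hE : IsExt p h)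
    (hP : IsPGroup p (GalGrp h)) (h0 : D.Good K T) : D.Good L (D.res h T) := by
  have hfin := finite_gal hE
  have hK := finite_left hE
  have hL : FiniteDimensional ℚ L := hE.1
  rw [(good_iff hD T hK).2] at h0
  rw [(good_iff hD (D.res h T) hL).2]
  have h1 : D.m L (D.res h T) ≤ Nat.card (GalGrp h) * D.m K T := (hD.pres K L h T hE hP).rk_le
  rw [h0, mul_zero] at h1
  exact Nat.le_zero.1 h1

/-- **The criterion.** -/
lemma criterion (hD : Known D p) {K L : IntermediateField ℚ ℂ} {h : K ≤ L} (T : D.Rep K) (hE : IsExt p h)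
    (hP : IsPGroup p (GalGrp h)) {d : ℕ} (hd : HasElemQuot p d (GalGrp h)) (hdr : D.r K T < d) :
    D.Good K T ↔ D.ell L (D.res h T) ≤ D.ell K T ∧ D.ell K T ≠ ⊤ := by
  have hK := finite_left hE
  constructor
  · intro h0
    have h1 := good_up hD T hE hP h0
    rw [(good_iff hD (D.res h T) hE.1).1] at h1
    rw [(good_iff hD T hK).1] at h0
    rw [h0, h1]
    exact ⟨le_rfl, ENat.zero_ne_top⟩
  · rintro ⟨hle, hne⟩
    by_contra h0
    rw [(good_iff hD T hK).2] at h0
    have h1 := ell_add_le hD T hE hP hd
    have h2 : D.ell L (D.res h T) ≠ ⊤ := fun h3 => hne (top_le_iff.1 (h3 ▸ hle))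
    obtain ⟨a, ha⟩ := ENat.ne_top_iff_exists.1 hne
    obtain ⟨b, hb⟩ := ENat.ne_top_iff_exists.1 h2
    rw [← ha, ← hb] at h1 hle
    have h3 : b ≤ a := by exact_mod_cast hle
    have h4 : a + d * D.m K T ≤ b + D.r K T := by exact_mod_cast h1
    have h5 : d * 1 ≤ d * D.m K T := Nat.mul_le_mul_left d (Nat.one_le_iff_ne_zero.2 h0)
    omega

end

end Pool.Agent.Q182.SP.Rep
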